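import Mathlib
open MeasureTheory ProbabilityTheory
namespace Pool.Agent.Results.MP_c9886c_pr.MeanExceedsSpeed

/-- The one-step transition operator of the walk in the environment `ω`. -/
noncomputable def step (ω : ℤ → ℝ) (f : ℤ → ℝ) : ℤ → ℝ :=
  fun x => ω x * f (x + 1) + (1 - ω x) * f (x - 1)

/-- `qexp ω n f` is the quenched expectation of `f (Z_n)` for the walk started at `0`. -/
noncomputable def qexp (ω : ℤ → ℝ) (n : ℕ) (f : ℤ → ℝ) : ℝ := ((step ω)^[n] f) 0

/-- The law `μ = α^ℤ` of the environment. -/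
noncomputable def envLaw (α : Measure ℝ) [IsProbabilityMeasure α] : Measure (ℤ → ℝ) :=
  Measure.infinitePi (fun _ : ℤ => α)

instance (α : Measure ℝ) [IsProbabilityMeasure α] : IsProbabilityMeasure (envLaw α) := by
  unfold envLaw; infer_instance

/-- The annealed mean `E_0^μ[Z_n]` of the walk started at `0`. -/
noncomputable def annealedMean (α : Measure ℝ) [IsProbabilityMeasure α] (n : ℕ) : ℝ :=
  ∫ ω, qexp ω n (fun k => (k : ℝ)) ∂(envLaw α)

/-- `ρ = (1 - ω) / ω` as a function of the value `ω` at a site. -/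
noncomputable def rho (w : ℝ) : ℝ := (1 - w) / w

/-- Solomon's speed `v_μ`: `(1 - ⟨ρ⟩) / (1 + ⟨ρ⟩)` if `⟨ρ⟩ < 1` and `0` otherwise. -/
noncomputable def speed (α : Measure ℝ) : ℝ :=
  if ∫ w, rho w ∂α < 1 then (1 - ∫ w, rho w ∂α) / (1 + ∫ w, rho w ∂α) else 0

/-! resampling -/

lemma measurable_upd (i : ℤ) :
    Measurable (fun p : (ℤ → ℝ) × ℝ => Function.update p.1 i p.2) := by
  rw [measurable_pi_iff]
  intro j
  by_cases h : j = i
  · subst h
    simp only [Function.update_self]
    exact measurable_snd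
  · simp only [Function.update_of_ne h]
    exact (measurable_pi_apply j).comp measurable_fst

lemma resample (α : Measure ℝ) [IsProbabilityMeasure α] (i : ℤ) :
    ((envLaw α).prod α).map (fun p : (ℤ → ℝ) × ℝ => Function.update p.1 i p.2) = envLaw α := by
  classical
  refine Measure.eq_infinitePi _ ?_
  intro s t ht
  rw [Measure.map_apply (measurable_upd i) (MeasurableSet.pi s.countable_toSet (fun j _ => ht j))]
  by_cases hi : i ∈ s
  · have hset : (fun p : (ℤ → ℝ) × ℝ => Function.update p.1 i p.2) ⁻¹' (Set.pi (s : Set ℤ) t)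
        = (Set.pi ((s.erase i : Finset ℤ) : Set ℤ) t) ×ˢ (t i) := by
      ext p
      simp only [Set.mem_preimage, Set.mem_pi, Set.mem_prod, Finset.mem_coe, Finset.mem_erase]
      constructor
      · intro h
        refine ⟨fun j hj => ?_, ?_⟩
        · have := h j hj.2
          rwa [Function.update_of_ne hj.1] at this
        · have := h i hi
          rwa [Function.update_self] at this
      · rintro ⟨h1, h2⟩ j hj
        by_cases hji : j = i
        · subst hji; rwa [Function.update_self]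
        · rw [Function.update_of_ne hji]; exact h1 j ⟨hji, hj⟩
    rw [hset, Measure.prod_prod, envLaw, Measure.infinitePi_pi _ (fun j _ => ht j),
      ← Finset.prod_erase_mul s _ hi]
  · have hset : (fun p : (ℤ → ℝ) × ℝ => Function.update p.1 i p.2) ⁻¹' (Set.pi (s : Set ℤ) t)
        = (Set.pi (s : Set ℤ) t) ×ˢ (Set.univ) := by
      ext p
      simp only [Set.mem_preimage, Set.mem_pi, Set.mem_prod, Finset.mem_coe, Set.mem_univ, and_true]
      constructor
      · intro h j hj
        have hji : j ≠ i := fun e => hi (e ▸ hj)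
        have := h j hj
        rwa [Function.update_of_ne hji] at this
      · intro h j hj
        have hji : j ≠ i := fun e => hi (e ▸ hj)
        rw [Function.update_of_ne hji]; exact h j hj
    rw [hset, Measure.prod_prod, envLaw, Measure.infinitePi_pi _ (fun j _ => ht j)]
    simp

lemma resample_mp (α : Measure ℝ) [IsProbabilityMeasure α] (i : ℤ) :
    MeasurePreserving (fun p : (ℤ → ℝ) × ℝ => Function.update p.1 i p.2)
      ((envLaw α).prod α) (envLaw α) := ⟨measurable_upd i, resample α i⟩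

lemma integral_resample (α : Measure ℝ) [IsProbabilityMeasure α] (i : ℤ) (F : (ℤ → ℝ) → ℝ)
    (hF : Integrable F (envLaw α)) :
    ∫ ω, F ω ∂(envLaw α) = ∫ ω, (∫ t, F (Function.update ω i t) ∂α) ∂(envLaw α) := by
  have h1 : ∫ ω, F ω ∂(envLaw α)
      = ∫ p, F (Function.update p.1 i p.2) ∂((envLaw α).prod α) := by
    conv_lhs => rw [← resample α i]
    rw [integral_map (measurable_upd i).aemeasurable]
    rw [resample α i]; exact hF.aestronglyMeasurable
  rw [h1, integral_prod]
  exact ((resample_mp α i).integrable_comp hF.aestronglyMeasurable).2 hF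


/-! one variable Chebyshev -/

lemma cheb (α : Measure ℝ) [IsProbabilityMeasure α] (f g : ℝ → ℝ) (I : Set ℝ)
    (hI : ∀ᵐ t ∂α, t ∈ I) (hfi : Integrable f α) (hgi : Integrable g α)
    (hfgi : Integrable (fun t => f t * g t) α)
    (hf : ∀ x ∈ I, ∀ y ∈ I, x ≤ y → f y ≤ f x) (hg : ∀ x ∈ I, ∀ y ∈ I, x ≤ y → g y ≤ g x) :
    (∫ t, f t ∂α) * (∫ t, g t ∂α) ≤ ∫ t, f t * g t ∂α := by
  have key : 0 ≤ ∫ x, (∫ y, (f x - f y) * (g x - g y) ∂α) ∂α := by
    refine integral_nonneg_of_ae ?_
    filter_upwards [hI] with x hx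
    refine integral_nonneg_of_ae ?_
    filter_upwards [hI] with y hy
    simp only [Pi.zero_apply]
    rcases le_total x y with h | h
    · have := hf x hx y hy h; have := hg x hx y hy h; nlinarith
    · have := hf y hy x hx h; have := hg y hy x hx h; nlinarith
  have e1 : ∀ x, ∫ y, (f x - f y) * (g x - g y) ∂α
      = f x * g x - f x * (∫ y, g y ∂α) - g x * (∫ y, f y ∂α) + ∫ y, f y * g y ∂α := by
    intro x
    have : (fun y => (f x - f y) * (g x - g y))
        = fun y => ((f x * g x - f x * g y) - g x * f y) + f y * g y := by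
      funext y; ring
    rw [this, integral_add, integral_sub, integral_sub, integral_const_mul, integral_const_mul]
    · simp only [integral_const, probReal_univ, smul_eq_mul, one_mul]
      rw [integral_const_mul]
    · exact integrable_const _
    · exact hgi.const_mul _
    · exact (integrable_const _).sub (hgi.const_mul _)
    · exact hfi.const_mul _
    · exact ((integrable_const _).sub (hgi.const_mul _)).sub (hfi.const_mul _)
    · exact hfgi
  simp_rw [e1] at key
  rw [integral_add, integral_sub, integral_sub, integral_mul_const, integral_mul_const] at key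
  · simp only [integral_const, probReal_univ, smul_eq_mul, one_mul] at key
    nlinarith
  · exact hfgi
  · exact hfi.mul_const _
  · exact hfgi.sub (hfi.mul_const _)
  · exact hgi.mul_const _
  · exact (hfgi.sub (hfi.mul_const _)).sub (hgi.mul_const _)
  · exact integrable_const _

/-- the recursively defined quantity `m` (expected crossing times, with boundary value `V`). -/
noncomputable def mm (n : ℕ) (V : ℝ) : ℕ → (ℤ → ℝ) → ℝ
  | 0, _ => V
  | (j + 1), ω => 1 / ω ((j : ℤ) - n) + rho (ω ((j : ℤ) - n)) * mm n V j ω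

lemma mm_update (n : ℕ) (V : ℝ) (j : ℕ) (ω : ℤ → ℝ) (i : ℤ) (t : ℝ) (h : (j : ℤ) - n ≤ i) :
    mm n V j (Function.update ω i t) = mm n V j ω := by
  induction j with
  | zero => rfl
  | succ j ih =>
    have hne : ((j : ℤ) - n) ≠ i := by push_cast at h; omega
    simp only [mm, Function.update_of_ne hne]
    rw [ih (by push_cast at h; omega)]

lemma measurable_rho : Measurable rho := by
  unfold rho; fun_prop

lemma mm_measurable (n : ℕ) (V : ℝ) (j : ℕ) : Measurable (mm n V j) := by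
  induction j with
  | zero => simp only [mm]; exact measurable_const
  | succ j ih =>
    simp only [mm]
    have h1 : Measurable (fun ω : ℤ → ℝ => ω ((j : ℤ) - n)) := measurable_pi_apply _
    exact (measurable_const.div h1).add ((measurable_rho.comp h1).mul ih)

/-- the good set -/
def Good (c : ℝ) : Set (ℤ → ℝ) := {ω | ∀ k, c ≤ ω k ∧ ω k ≤ 1 - c}

lemma good_ae (α : Measure ℝ) [IsProbabilityMeasure α] (c : ℝ)
    (h : ∀ᵐ w ∂α, c ≤ w ∧ w ≤ 1 - c) : ∀ᵐ ω ∂(envLaw α), ω ∈ Good c := by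
  have : ∀ᵐ ω ∂(envLaw α), ∀ k : ℤ, c ≤ ω k ∧ ω k ≤ 1 - c := by
    rw [ae_all_iff]
    intro k
    have hmp := measurePreserving_eval_infinitePi (fun _ : ℤ => α) k
    exact hmp.quasiMeasurePreserving.ae h
  exact this

lemma good_update {c : ℝ} {ω : ℤ → ℝ} (h : ω ∈ Good c) (i : ℤ) {t : ℝ} (ht : c ≤ t ∧ t ≤ 1 - c) :
    Function.update ω i t ∈ Good c := by
  intro k
  by_cases hk : k = i
  · subst hk; simpa using ht
  · rw [Function.update_of_ne hk]; exact h k

lemma mm_nonneg (n : ℕ) {V : ℝ} (hV : 0 ≤ V) {c : ℝ} (hc : 0 < c) (j : ℕ) {ω : ℤ → ℝ}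
    (h : ω ∈ Good c) : 0 ≤ mm n V j ω := by
  induction j with
  | zero => exact hV
  | succ j ih =>
    have h1 := h ((j : ℤ) - n)
    have h2 : 0 < ω ((j : ℤ) - n) := lt_of_lt_of_le hc h1.1
    have h3 : 0 ≤ rho (ω ((j : ℤ) - n)) := by
      unfold rho; apply div_nonneg _ h2.le; linarith [h1.2]
    simp only [mm]
    positivity

lemma rho_le {c w : ℝ} (hc : 0 < c) (h : c ≤ w ∧ w ≤ 1 - c) : rho w ≤ 1 / c := by
  unfold rho
  have hw : 0 < w := lt_of_lt_of_le hc h.1
  rw [div_le_div_iff₀ hw hc]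
  nlinarith [h.1, h.2]

lemma rho_nonneg {c w : ℝ} (hc : 0 < c) (h : c ≤ w ∧ w ≤ 1 - c) : 0 ≤ rho w := by
  unfold rho
  have hw : 0 < w := lt_of_lt_of_le hc h.1
  exact div_nonneg (by linarith [h.2]) hw.le

lemma inv_le' {c w : ℝ} (hc : 0 < c) (h : c ≤ w ∧ w ≤ 1 - c) : 1 / w ≤ 1 / c := by
  have hw : 0 < w := lt_of_lt_of_le hc h.1
  exact one_div_le_one_div_of_le hc h.1

lemma mm_bdd (n : ℕ) {V : ℝ} (hV : 0 ≤ V) {c : ℝ} (hc : 0 < c) (j : ℕ) :
    ∃ C : ℝ, 0 ≤ C ∧ ∀ ω ∈ Good c, mm n V j ω ≤ C := by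
  induction j with
  | zero => exact ⟨V, hV, fun ω _ => le_refl _⟩
  | succ j ih =>
    obtain ⟨C, hC, h⟩ := ih
    refine ⟨1 / c + (1 / c) * C, by positivity, fun ω hω => ?_⟩
    have h1 := hω ((j : ℤ) - n)
    simp only [mm]
    have := mm_nonneg n hV hc j hω
    have := rho_le hc h1
    have := rho_nonneg hc h1
    have := inv_le' hc h1
    have := h ω hω
    gcongr

/-- the class of test functions -/
structure Test (c : ℝ) (h : (ℤ → ℝ) → ℝ) : Prop where
  meas : Measurable h
  bdd : ∃ C : ℝ, ∀ ω ∈ Good c, |h ω| ≤ C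
  anti : ∀ ω ∈ Good c, ∀ ω' ∈ Good c, (∀ k, ω k ≤ ω' k) → h ω' ≤ h ω

lemma Test.integrable {α : Measure ℝ} [IsProbabilityMeasure α] {c : ℝ}
    (hα : ∀ᵐ w ∂α, c ≤ w ∧ w ≤ 1 - c) {h : (ℤ → ℝ) → ℝ} (hm : Measurable h)
    (hb : ∃ C : ℝ, ∀ ω ∈ Good c, |h ω| ≤ C) : Integrable h (envLaw α) := by
  obtain ⟨C, hC⟩ := hb
  refine Integrable.of_bound hm.aestronglyMeasurable C ?_
  filter_upwards [good_ae α c hα] with ω hω
  exact hC ω hω

lemma integrable_upd {α : Measure ℝ} [IsProbabilityMeasure α] {c : ℝ}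
    (hα : ∀ᵐ w ∂α, c ≤ w ∧ w ≤ 1 - c) {h : (ℤ → ℝ) → ℝ} (hm : Measurable h)
    (hb : ∃ C : ℝ, ∀ ω ∈ Good c, |h ω| ≤ C) (i : ℤ) {ω : ℤ → ℝ} (hω : ω ∈ Good c) :
    Integrable (fun t => h (Function.update ω i t)) α := by
  obtain ⟨C, hC⟩ := hb
  have hm' : Measurable (fun t => h (Function.update ω i t)) :=
    hm.comp (measurable_update ω)
  refine Integrable.of_bound hm'.aestronglyMeasurable C ?_
  filter_upwards [hα] with t ht
  exact hC _ (good_update hω i ht)

lemma Test.bar {α : Measure ℝ} [IsProbabilityMeasure α] {c : ℝ}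
    (hα : ∀ᵐ w ∂α, c ≤ w ∧ w ≤ 1 - c) {h : (ℤ → ℝ) → ℝ} (hh : Test c h) (i : ℤ) :
    Test c (fun ω => ∫ t, h (Function.update ω i t) ∂α) := by
  refine ⟨?_, ?_, ?_⟩
  · have : Measurable (fun p : (ℤ → ℝ) × ℝ => h (Function.update p.1 i p.2)) :=
      hh.meas.comp (measurable_upd i)
    exact (this.stronglyMeasurable.integral_prod_right').measurable
  · obtain ⟨C, hC⟩ := hh.bdd
    refine ⟨C, fun ω hω => ?_⟩
    have := norm_integral_le_of_norm_le_const (μ := α) (f := fun t => h (Function.update ω i t))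
      (C := C) (by
        filter_upwards [hα] with t ht
        exact hC _ (good_update hω i ht))
    simpa using this
  · intro ω hω ω' hω' hle
    refine integral_mono_ae (integrable_upd hα hh.meas hh.bdd i hω')
      (integrable_upd hα hh.meas hh.bdd i hω) ?_
    filter_upwards [hα] with t ht
    refine hh.anti _ (good_update hω i ht) _ (good_update hω' i ht) ?_
    intro k
    by_cases hk : k = i
    · subst hk; simp
    · rw [Function.update_of_ne hk, Function.update_of_ne hk]; exact hle k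


lemma rho_anti {c x y : ℝ} (hc : 0 < c) (hx : c ≤ x ∧ x ≤ 1 - c) (hy : c ≤ y ∧ y ≤ 1 - c)
    (h : x ≤ y) : rho y ≤ rho x := by
  unfold rho
  have h1 : 0 < x := lt_of_lt_of_le hc hx.1
  have h2 : 0 < y := lt_of_lt_of_le hc hy.1
  rw [div_le_div_iff₀ h2 h1]
  nlinarith

lemma int_rho {α : Measure ℝ} [IsProbabilityMeasure α] {c : ℝ} (hc : 0 < c)
    (hα : ∀ᵐ w ∂α, c ≤ w ∧ w ≤ 1 - c) : Integrable rho α := by
  refine Integrable.of_bound measurable_rho.aestronglyMeasurable (1 / c) ?_
  filter_upwards [hα] with t ht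
  rw [Real.norm_eq_abs, abs_of_nonneg (rho_nonneg hc ht)]
  exact rho_le hc ht

lemma int_inv {α : Measure ℝ} [IsProbabilityMeasure α] {c : ℝ} (hc : 0 < c)
    (hα : ∀ᵐ w ∂α, c ≤ w ∧ w ≤ 1 - c) : Integrable (fun w : ℝ => 1 / w) α := by
  refine Integrable.of_bound (by fun_prop : Measurable (fun w : ℝ => 1 / w)).aestronglyMeasurable
    (1 / c) ?_
  filter_upwards [hα] with t ht
  have : 0 < t := lt_of_lt_of_le hc ht.1
  rw [Real.norm_eq_abs, abs_of_nonneg (by positivity)]
  exact inv_le' hc ht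

/-- Chebyshev in coordinate `i` against a test function. -/
lemma cheb_coord {α : Measure ℝ} [IsProbabilityMeasure α] {c : ℝ}
    (hα : ∀ᵐ w ∂α, c ≤ w ∧ w ≤ 1 - c) {h : (ℤ → ℝ) → ℝ} (hh : Test c h) (i : ℤ)
    (φ : ℝ → ℝ) (hφm : Measurable φ) (K : ℝ) (hφb : ∀ t, (c ≤ t ∧ t ≤ 1 - c) → |φ t| ≤ K)
    (hφa : ∀ x y, (c ≤ x ∧ x ≤ 1 - c) → (c ≤ y ∧ y ≤ 1 - c) → x ≤ y → φ y ≤ φ x)
    {ω : ℤ → ℝ} (hω : ω ∈ Good c) :
    (∫ t, φ t ∂α) * (∫ t, h (Function.update ω i t) ∂α)
      ≤ ∫ t, φ t * h (Function.update ω i t) ∂α := by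
  obtain ⟨C, hC⟩ := hh.bdd
  have hK : 0 ≤ K := by
    obtain ⟨t, ht⟩ := hα.exists
    exact (abs_nonneg _).trans (hφb t ht)
  refine cheb α φ (fun t => h (Function.update ω i t)) {t | c ≤ t ∧ t ≤ 1 - c} hα ?_
    (integrable_upd hα hh.meas hh.bdd i hω) ?_ ?_ ?_
  · refine Integrable.of_bound hφm.aestronglyMeasurable K ?_
    filter_upwards [hα] with t ht
    exact hφb t ht
  · refine Integrable.of_bound
      (hφm.mul (hh.meas.comp (measurable_update ω))).aestronglyMeasurable (K * C) ?_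
    filter_upwards [hα] with t ht
    rw [norm_mul]
    exact mul_le_mul (hφb t ht) (hC _ (good_update hω i ht)) (norm_nonneg _) hK
  · intro x hx y hy hxy
    exact hφa x y hx hy hxy
  · intro x hx y hy hxy
    refine hh.anti _ (good_update hω i hx) _ (good_update hω i hy) ?_
    intro k
    by_cases hk : k = i
    · subst hk; simpa using hxy
    · rw [Function.update_of_ne hk, Function.update_of_ne hk]

lemma prod_bdd {c : ℝ} {f g : (ℤ → ℝ) → ℝ} (hf : ∃ C : ℝ, ∀ ω ∈ Good c, |f ω| ≤ C)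
    (hg : ∃ C : ℝ, ∀ ω ∈ Good c, |g ω| ≤ C) : ∃ C : ℝ, ∀ ω ∈ Good c, |f ω * g ω| ≤ C := by
  obtain ⟨A, hA⟩ := hf
  obtain ⟨B, hB⟩ := hg
  refine ⟨A * B, fun ω hω => ?_⟩
  rw [abs_mul]
  exact mul_le_mul (hA ω hω) (hB ω hω) (abs_nonneg _) ((abs_nonneg _).trans (hA ω hω))

lemma mm_bdd' (n : ℕ) {V : ℝ} (hV : 0 ≤ V) {c : ℝ} (hc : 0 < c) (j : ℕ) :
    ∃ C : ℝ, ∀ ω ∈ Good c, |mm n V j ω| ≤ C := by
  obtain ⟨C, _, h⟩ := mm_bdd n hV hc j
  exact ⟨C, fun ω hω => by rw [abs_of_nonneg (mm_nonneg n hV hc j hω)]; exact h ω hω⟩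

lemma rho_bdd' {c : ℝ} (hc : 0 < c) (i : ℤ) :
    ∃ C : ℝ, ∀ ω ∈ Good c, |rho (ω i)| ≤ C :=
  ⟨1 / c, fun ω hω => by rw [abs_of_nonneg (rho_nonneg hc (hω i))]; exact rho_le hc (hω i)⟩

lemma inv_bdd' {c : ℝ} (hc : 0 < c) (i : ℤ) :
    ∃ C : ℝ, ∀ ω ∈ Good c, |1 / ω i| ≤ C :=
  ⟨1 / c, fun ω hω => by
    have : 0 < ω i := lt_of_lt_of_le hc (hω i).1
    rw [abs_of_nonneg (by positivity)]; exact inv_le' hc (hω i)⟩

lemma star2 {α : Measure ℝ} [IsProbabilityMeasure α] {c : ℝ} (hc : 0 < c)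
    (hα : ∀ᵐ w ∂α, c ≤ w ∧ w ≤ 1 - c) (n : ℕ) {V : ℝ} (hV : 0 ≤ V)
    (hVeq : (∫ w, 1 / w ∂α) + (∫ w, rho w ∂α) * V = V) (j : ℕ)
    (ih : ∀ h, Test c h → V * ∫ ω, h ω ∂(envLaw α) ≤ ∫ ω, mm n V j ω * h ω ∂(envLaw α))
    (h : (ℤ → ℝ) → ℝ) (hh : Test c h) :
    V * ∫ ω, h ω ∂(envLaw α) + (∫ ω, (1 / ω ((j : ℤ) - n)) * h ω ∂(envLaw α)
        - (∫ w, 1 / w ∂α) * ∫ ω, h ω ∂(envLaw α))
      ≤ ∫ ω, mm n V (j + 1) ω * h ω ∂(envLaw α) := by
  set i : ℤ := (j : ℤ) - n with hi
  have hrho_nn : 0 ≤ ∫ w, rho w ∂α := by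
    refine integral_nonneg_of_ae ?_
    filter_upwards [hα] with w hw
    exact rho_nonneg hc hw
  have mi : Measurable (fun ω : ℤ → ℝ => ω i) := measurable_pi_apply _
  have split : ∫ ω, mm n V (j + 1) ω * h ω ∂(envLaw α)
      = ∫ ω, (1 / ω i) * h ω ∂(envLaw α)
        + ∫ ω, mm n V j ω * (rho (ω i) * h ω) ∂(envLaw α) := by
    rw [← integral_add]
    · congr 1; funext ω; simp only [mm]; ring
    · exact Test.integrable hα ((measurable_const.div mi).mul hh.meas)
        (prod_bdd (inv_bdd' hc i) hh.bdd)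
    · exact Test.integrable hα ((mm_measurable n V j).mul ((measurable_rho.comp mi).mul hh.meas))
        (prod_bdd (mm_bdd' n hV hc j) (prod_bdd (rho_bdd' hc i) hh.bdd))
  rw [split]
  have hbar := Test.bar hα hh i
  have hbar_int : ∫ ω, (∫ t, h (Function.update ω i t) ∂α) ∂(envLaw α) = ∫ ω, h ω ∂(envLaw α) :=
    (integral_resample α i h (Test.integrable hα hh.meas hh.bdd)).symm
  have second : (∫ w, rho w ∂α) * (V * ∫ ω, h ω ∂(envLaw α))
      ≤ ∫ ω, mm n V j ω * (rho (ω i) * h ω) ∂(envLaw α) := by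
    rw [integral_resample α i (fun ω => mm n V j ω * (rho (ω i) * h ω))
      (Test.integrable hα ((mm_measurable n V j).mul ((measurable_rho.comp mi).mul hh.meas))
        (prod_bdd (mm_bdd' n hV hc j) (prod_bdd (rho_bdd' hc i) hh.bdd)))]
    have e : ∀ ω : ℤ → ℝ, (∫ t, mm n V j (Function.update ω i t)
        * (rho ((Function.update ω i t) i) * h (Function.update ω i t)) ∂α)
        = mm n V j ω * ∫ t, rho t * h (Function.update ω i t) ∂α := by
      intro ω
      rw [← integral_const_mul]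
      congr 1; funext t
      rw [mm_update n V j ω i t (le_refl _), Function.update_self]
    simp_rw [e]
    calc (∫ w, rho w ∂α) * (V * ∫ ω, h ω ∂(envLaw α))
        = (∫ w, rho w ∂α) * (V * ∫ ω, (∫ t, h (Function.update ω i t) ∂α) ∂(envLaw α)) := by
          rw [hbar_int]
      _ ≤ (∫ w, rho w ∂α) * ∫ ω, mm n V j ω * (∫ t, h (Function.update ω i t) ∂α) ∂(envLaw α) :=
          mul_le_mul_of_nonneg_left (ih _ hbar) hrho_nn
      _ = ∫ ω, mm n V j ω * ((∫ w, rho w ∂α) * (∫ t, h (Function.update ω i t) ∂α))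
            ∂(envLaw α) := by
          rw [← integral_const_mul]; congr 1; funext ω; ring
      _ ≤ _ := by
          have hQ : Measurable (fun ω : ℤ → ℝ => ∫ t, rho t * h (Function.update ω i t) ∂α) := by
            have : Measurable (fun p : (ℤ → ℝ) × ℝ => rho p.2 * h (Function.update p.1 i p.2)) :=
              (measurable_rho.comp measurable_snd).mul (hh.meas.comp (measurable_upd i))
            exact (this.stronglyMeasurable.integral_prod_right').measurable
          have hQb : ∃ C : ℝ, ∀ ω ∈ Good c, |∫ t, rho t * h (Function.update ω i t) ∂α| ≤ C := by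
            obtain ⟨C, hC⟩ := hh.bdd
            refine ⟨1 / c * C, fun ω hω => ?_⟩
            have := norm_integral_le_of_norm_le_const (μ := α)
              (f := fun t => rho t * h (Function.update ω i t)) (C := 1 / c * C) (by
                filter_upwards [hα] with t ht
                rw [norm_mul]
                refine mul_le_mul ?_ (hC _ (good_update hω i ht)) (norm_nonneg _) (by positivity)
                rw [Real.norm_eq_abs, abs_of_nonneg (rho_nonneg hc ht)]
                exact rho_le hc ht)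
            simpa using this
          refine integral_mono_ae ?_ ?_ ?_
          · refine Test.integrable hα ((mm_measurable n V j).mul (hbar.meas.const_mul _))
              (prod_bdd (mm_bdd' n hV hc j) ?_)
            obtain ⟨C, hC⟩ := hbar.bdd
            refine ⟨(∫ w, rho w ∂α) * C, fun ω hω => ?_⟩
            rw [abs_mul, abs_of_nonneg hrho_nn]
            exact mul_le_mul_of_nonneg_left (hC ω hω) hrho_nn
          · exact Test.integrable hα ((mm_measurable n V j).mul hQ)
              (prod_bdd (mm_bdd' n hV hc j) hQb)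
          · filter_upwards [good_ae α c hα] with ω hω
            refine mul_le_mul_of_nonneg_left ?_ (mm_nonneg n hV hc j hω)
            refine cheb_coord hα hh i rho measurable_rho (1 / c) ?_ ?_ hω
            · intro t ht
              rw [abs_of_nonneg (rho_nonneg hc ht)]; exact rho_le hc ht
            · intro x y hx hy hxy
              exact rho_anti hc hx hy hxy
  have : V * ∫ ω, h ω ∂(envLaw α) - (∫ w, 1 / w ∂α) * ∫ ω, h ω ∂(envLaw α)
      = (∫ w, rho w ∂α) * (V * ∫ ω, h ω ∂(envLaw α)) := by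
    have : V - (∫ w, 1 / w ∂α) = (∫ w, rho w ∂α) * V := by linarith
    rw [← sub_mul, this]; ring
  linarith

lemma cheb_inv {α : Measure ℝ} [IsProbabilityMeasure α] {c : ℝ} (hc : 0 < c)
    (hα : ∀ᵐ w ∂α, c ≤ w ∧ w ≤ 1 - c) (i : ℤ) (h : (ℤ → ℝ) → ℝ) (hh : Test c h) :
    (∫ w, 1 / w ∂α) * ∫ ω, h ω ∂(envLaw α) ≤ ∫ ω, (1 / ω i) * h ω ∂(envLaw α) := by
  have mi : Measurable (fun ω : ℤ → ℝ => ω i) := measurable_pi_apply _
  have hbar := Test.bar hα hh i
  have hbar_int : ∫ ω, (∫ t, h (Function.update ω i t) ∂α) ∂(envLaw α) = ∫ ω, h ω ∂(envLaw α) :=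
    (integral_resample α i h (Test.integrable hα hh.meas hh.bdd)).symm
  rw [integral_resample α i (fun ω => (1 / ω i) * h ω)
    (Test.integrable hα ((measurable_const.div mi).mul hh.meas)
        (prod_bdd (inv_bdd' hc i) hh.bdd)), ← hbar_int, ← integral_const_mul]
  have hnn : 0 ≤ ∫ w, 1 / w ∂α := by
    refine integral_nonneg_of_ae ?_
    filter_upwards [hα] with w hw
    have : 0 < w := lt_of_lt_of_le hc hw.1
    simp only [Pi.zero_apply]
    positivity
  refine integral_mono_ae ?_ ?_ ?_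
  · refine (Test.integrable hα hbar.meas hbar.bdd).const_mul _
  · have hQ : Measurable (fun ω : ℤ → ℝ =>
        ∫ t, 1 / (Function.update ω i t) i * h (Function.update ω i t) ∂α) := by
      have : Measurable (fun p : (ℤ → ℝ) × ℝ =>
          1 / (Function.update p.1 i p.2) i * h (Function.update p.1 i p.2)) :=
        (measurable_const.div (mi.comp (measurable_upd i))).mul (hh.meas.comp (measurable_upd i))
      exact (this.stronglyMeasurable.integral_prod_right').measurable
    refine Test.integrable hα hQ ?_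
    obtain ⟨C, hC⟩ := hh.bdd
    refine ⟨1 / c * C, fun ω hω => ?_⟩
    have := norm_integral_le_of_norm_le_const (μ := α)
      (f := fun t => 1 / (Function.update ω i t) i * h (Function.update ω i t)) (C := 1 / c * C) (by
        filter_upwards [hα] with t ht
        rw [norm_mul]
        refine mul_le_mul ?_ (hC _ (good_update hω i ht)) (norm_nonneg _) (by positivity)
        rw [Function.update_self, Real.norm_eq_abs, abs_of_nonneg]
        · exact inv_le' hc ht
        · have : 0 < t := lt_of_lt_of_le hc ht.1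
          positivity)
    simpa using this
  · filter_upwards [good_ae α c hα] with ω hω
    have := cheb_coord hα hh i (fun w => 1 / w) (by fun_prop) (1 / c) (by
        intro t ht
        have : 0 < t := lt_of_lt_of_le hc ht.1
        rw [abs_of_nonneg (by positivity)]; exact inv_le' hc ht) (by
        intro x y hx hy hxy
        exact one_div_le_one_div_of_le (lt_of_lt_of_le hc hx.1) hxy) hω
    refine this.trans (le_of_eq ?_)
    congr 1; funext t; rw [Function.update_self]

lemma star {α : Measure ℝ} [IsProbabilityMeasure α] {c : ℝ} (hc : 0 < c)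
    (hα : ∀ᵐ w ∂α, c ≤ w ∧ w ≤ 1 - c) (n : ℕ) {V : ℝ} (hV : 0 ≤ V)
    (hVeq : (∫ w, 1 / w ∂α) + (∫ w, rho w ∂α) * V = V) (j : ℕ) :
    ∀ h, Test c h → V * ∫ ω, h ω ∂(envLaw α) ≤ ∫ ω, mm n V j ω * h ω ∂(envLaw α) := by
  induction j with
  | zero =>
    intro h hh
    simp only [mm]
    rw [integral_const_mul]
  | succ j ih =>
    intro h hh
    have h1 := star2 hc hα n hV hVeq j ih h hh
    have h2 := cheb_inv hc hα ((j : ℤ) - n) h hh
    linarith

/-! the walk -/

lemma step_add (ω : ℤ → ℝ) (f g : ℤ → ℝ) : step ω (f + g) = step ω f + step ω g := by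
  funext x; simp only [step, Pi.add_apply]; ring

lemma step_smul (ω : ℤ → ℝ) (a : ℝ) (f : ℤ → ℝ) : step ω (a • f) = a • step ω f := by
  funext x; simp only [step, Pi.smul_apply, smul_eq_mul]; ring

/-- the transition operator as a linear map -/
noncomputable def stepL (ω : ℤ → ℝ) : (ℤ → ℝ) →ₗ[ℝ] (ℤ → ℝ) where
  toFun := step ω
  map_add' := step_add ω
  map_smul' := step_smul ω

lemma iter_eq (ω : ℤ → ℝ) (n : ℕ) (f : ℤ → ℝ) : (step ω)^[n] f = ((stepL ω) ^ n) f := by
  rw [Module.End.pow_apply]; rfl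

lemma iter_const (ω : ℤ → ℝ) (n : ℕ) (a : ℝ) : (step ω)^[n] (fun _ => a) = fun _ => a := by
  induction n with
  | zero => rfl
  | succ n ih =>
    rw [Function.iterate_succ_apply, show step ω (fun _ => a) = fun _ => a from ?_, ih]
    funext x; simp only [step]; ring

lemma iter_meas (f : ℤ → ℝ) (n : ℕ) (x : ℤ) :
    Measurable (fun ω : ℤ → ℝ => ((step ω)^[n] f) x) := by
  induction n generalizing x with
  | zero => simp only [Function.iterate_zero, id]; exact measurable_const
  | succ n ih =>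
    simp only [Function.iterate_succ_apply']
    simp only [step]
    have h1 : Measurable (fun ω : ℤ → ℝ => ω x) := measurable_pi_apply _
    exact (h1.mul (ih (x + 1))).add ((measurable_const.sub h1).mul (ih (x - 1)))

/-- indicator of `x ≤ i` -/
noncomputable def ind (i : ℤ) : ℤ → ℝ := fun x => if x ≤ i then 1 else 0

lemma iter_ind_bd {c : ℝ} (hc : 0 < c) (i : ℤ) (n : ℕ) (ω : ℤ → ℝ) (hω : ω ∈ Good c) (x : ℤ) :
    0 ≤ ((step ω)^[n] (ind i)) x ∧ ((step ω)^[n] (ind i)) x ≤ 1 := by
  induction n generalizing x with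
  | zero => simp only [Function.iterate_zero, id, ind]; split_ifs <;> norm_num
  | succ n ih =>
    simp only [Function.iterate_succ_apply']
    simp only [step]
    have h1 := hω x
    have a := ih (x + 1)
    have b := ih (x - 1)
    constructor
    · have := mul_nonneg (by linarith : (0:ℝ) ≤ ω x) a.1
      have := mul_nonneg (by linarith : (0:ℝ) ≤ 1 - ω x) b.1
      linarith
    · nlinarith [mul_nonneg (by linarith : (0:ℝ) ≤ ω x) (sub_nonneg.2 a.2),
        mul_nonneg (by linarith : (0:ℝ) ≤ 1 - ω x) (sub_nonneg.2 b.2)]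

lemma iter_ind_two {c : ℝ} (hc : 0 < c) (i : ℤ) (n : ℕ) (ω : ℤ → ℝ) (hω : ω ∈ Good c) (x : ℤ) :
    ((step ω)^[n] (ind i)) (x + 1) ≤ ((step ω)^[n] (ind i)) (x - 1) := by
  induction n generalizing x with
  | zero =>
    simp only [Function.iterate_zero, id, ind]
    split_ifs <;> first | (exfalso; omega) | norm_num
  | succ n ih =>
    simp only [Function.iterate_succ_apply']
    simp only [step]
    have h1 := hω (x + 1)
    have h2 := hω (x - 1)
    have a := ih (x + 1)
    have b := ih (x - 1)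
    have e1 : x + 1 - 1 = x := by ring
    have e2 : x - 1 + 1 = x := by ring
    rw [e1] at a ⊢
    rw [e2] at b ⊢
    nlinarith [mul_nonneg (by linarith : (0:ℝ) ≤ ω (x + 1)) (sub_nonneg.2 a),
        mul_nonneg (by linarith : (0:ℝ) ≤ 1 - ω (x - 1)) (sub_nonneg.2 b)]

lemma iter_ind_anti {c : ℝ} (hc : 0 < c) (i : ℤ) (n : ℕ) (ω ω' : ℤ → ℝ) (hω : ω ∈ Good c)
    (hω' : ω' ∈ Good c) (hle : ∀ k, ω k ≤ ω' k) (x : ℤ) :
    ((step ω')^[n] (ind i)) x ≤ ((step ω)^[n] (ind i)) x := by
  induction n generalizing x with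
  | zero => simp
  | succ n ih =>
    simp only [Function.iterate_succ_apply']
    simp only [step]
    have h1 := hω x
    have h2 := hω' x
    have a := ih (x + 1)
    have b := ih (x - 1)
    have d := iter_ind_two hc i n ω' hω' x
    nlinarith [mul_nonneg (sub_nonneg.2 (hle x)) (sub_nonneg.2 d),
      mul_nonneg (by linarith : (0:ℝ) ≤ ω x) (sub_nonneg.2 a),
      mul_nonneg (by linarith : (0:ℝ) ≤ 1 - ω x) (sub_nonneg.2 b)]

lemma iter_ind_top (ω : ℤ → ℝ) (i : ℤ) (k : ℕ) :
    (∀ x : ℤ, x + k ≤ i → ((step ω)^[k] (ind i)) x = 1) ∧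
    (∀ x : ℤ, x + k = i + 1 → ((step ω)^[k] (ind i)) x
      = 1 - ∏ l ∈ Finset.range k, ω (x + l)) := by
  induction k with
  | zero =>
    constructor
    · intro x hx
      simp only [Function.iterate_zero, id, ind]
      rw [if_pos (by simpa using hx)]
    · intro x hx
      simp only [Function.iterate_zero, id, ind]
      rw [if_neg (by push_cast at hx; omega)]
      simp
  | succ k ih =>
    constructor
    · intro x hx
      push_cast at hx
      rw [Function.iterate_succ_apply']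
      simp only [step]
      rw [ih.1 (x + 1) (by omega), ih.1 (x - 1) (by omega)]
      ring
    · intro x hx
      push_cast at hx
      rw [Function.iterate_succ_apply']
      simp only [step]
      rw [ih.2 (x + 1) (by omega), ih.1 (x - 1) (by omega), Finset.prod_range_succ']
      have : ∏ l ∈ Finset.range k, ω (x + ((l + 1 : ℕ) : ℤ)) = ∏ l ∈ Finset.range k, ω (x + 1 + l) := by
        refine Finset.prod_congr rfl fun l _ => ?_
        congr 1; push_cast; ring
      rw [this]
      push_cast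
      rw [add_zero]
      ring

/-- the corrector -/
noncomputable def gg (n : ℕ) (V : ℝ) (ω : ℤ → ℝ) : ℤ → ℝ := fun x =>
  ∑ j ∈ Finset.range (2 * n), (1 / V * mm n V (j + 1) ω - 1) *
    (ind ((j : ℤ) - n) x - ind ((j : ℤ) - n) 0)

noncomputable def Phi (n : ℕ) (V : ℝ) (ω : ℤ → ℝ) : ℤ → ℝ := fun x => (x : ℝ) - gg n V ω x

lemma gg_diff (n : ℕ) (V : ℝ) (ω : ℤ → ℝ) (j : ℕ) (hj : j < 2 * n) (x : ℤ)
    (hx : x = (j : ℤ) - n) :
    gg n V ω (x + 1) - gg n V ω x = -(1 / V * mm n V (j + 1) ω - 1) := by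
  unfold gg
  rw [← Finset.sum_sub_distrib, Finset.sum_eq_single j]
  · have h1 : ind ((j : ℤ) - n) (x + 1) = 0 := by unfold ind; rw [if_neg]; omega
    have h2 : ind ((j : ℤ) - n) x = 1 := by unfold ind; rw [if_pos]; omega
    rw [h1, h2]; ring
  · intro b _ hbj
    have : ind ((b : ℤ) - n) (x + 1) = ind ((b : ℤ) - n) x := by
      unfold ind
      by_cases h : x ≤ (b : ℤ) - n
      · rw [if_pos h, if_pos (by omega)]
      · rw [if_neg h, if_neg (by omega)]
    rw [this]; ring
  · intro h; exact absurd (Finset.mem_range.2 hj) h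

lemma Phi_step (n : ℕ) {V : ℝ} (hV : 0 < V) {c : ℝ} (hc : 0 < c) (ω : ℤ → ℝ) (hω : ω ∈ Good c)
    (x : ℤ) (h1 : -(n : ℤ) < x) (h2 : x < n) :
    step ω (Phi n V ω) x = Phi n V ω x + 1 / V := by
  -- site x corresponds to j+1 = x + n + 1
  obtain ⟨j, hj⟩ : ∃ j : ℕ, (j : ℤ) = x + n := ⟨(x + n).toNat, by omega⟩
  obtain ⟨k, rfl⟩ : ∃ k : ℕ, j = k + 1 := ⟨j - 1, by omega⟩
  have d1 := gg_diff n V ω (k + 1) (by omega) x (by omega)
  have d2 := gg_diff n V ω k (by omega) (x - 1) (by push_cast at hj; omega)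
  rw [show x - 1 + 1 = x by ring] at d2
  have hm : ω x * mm n V (k + 1 + 1) ω = 1 + (1 - ω x) * mm n V (k + 1) ω := by
    have hx : ω x ≠ 0 := (lt_of_lt_of_le hc (hω x).1).ne'
    conv_lhs => rw [mm]
    have e : (((k + 1 : ℕ) : ℤ) - n) = x := by omega
    rw [e]
    unfold rho
    field_simp
  simp only [step, Phi]
  push_cast
  have hVne : V ≠ 0 := hV.ne'
  have g1 : gg n V ω (x + 1) = gg n V ω x - (1 / V * mm n V (k + 1 + 1) ω - 1) := by linarith
  have g2 : gg n V ω (x - 1) = gg n V ω x + (1 / V * mm n V (k + 1) ω - 1) := by linarith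
  rw [g1, g2]
  have : ω x * (1 / V * mm n V (k + 1 + 1) ω) = 1 / V * (1 + (1 - ω x) * mm n V (k + 1) ω) := by
    rw [← hm]; ring
  linear_combination this

lemma Phi_iter (n : ℕ) {V : ℝ} (hV : 0 < V) {c : ℝ} (hc : 0 < c) (ω : ℤ → ℝ) (hω : ω ∈ Good c)
    (k : ℕ) : ∀ x : ℤ, -(n : ℤ) ≤ x - k → x + k ≤ n →
    ((step ω)^[k] (Phi n V ω)) x = Phi n V ω x + k * (1 / V) := by
  induction k with
  | zero => intro x _ _; simp
  | succ k ih =>
    intro x h1 h2
    push_cast at h1 h2
    rw [Function.iterate_succ_apply']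
    simp only [step]
    rw [ih (x + 1) (by omega) (by omega), ih (x - 1) (by omega) (by omega)]
    have := Phi_step n hV hc ω hω x (by omega) (by omega)
    simp only [step] at this
    push_cast
    linear_combination this

lemma qexp_id (n : ℕ) {V : ℝ} (hV : 0 < V) {c : ℝ} (hc : 0 < c) (ω : ℤ → ℝ) (hω : ω ∈ Good c) :
    qexp ω n (fun k => (k : ℝ)) = n * (1 / V)
      + ∑ j ∈ Finset.range (2 * n), (1 / V * mm n V (j + 1) ω - 1) *
        (((step ω)^[n] (ind ((j : ℤ) - n))) 0 - ind ((j : ℤ) - n) 0) := by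
  have hdec : (fun k : ℤ => (k : ℝ)) = Phi n V ω + ∑ j ∈ Finset.range (2 * n),
      (1 / V * mm n V (j + 1) ω - 1) • (ind ((j : ℤ) - n)
        + (-(ind ((j : ℤ) - n) 0)) • (fun _ : ℤ => (1 : ℝ))) := by
    funext x
    simp only [Pi.add_apply, Phi, gg, Finset.sum_apply, Pi.smul_apply, smul_eq_mul]
    rw [sub_add, sub_eq_self.2]
    rw [sub_eq_zero]
    refine Finset.sum_congr rfl fun j _ => by ring
  unfold qexp
  rw [hdec, iter_eq, map_add, map_sum, Pi.add_apply, Finset.sum_apply, ← iter_eq]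
  rw [Phi_iter n hV hc ω hω n 0 (by omega) (by omega)]
  have h0 : Phi n V ω 0 = 0 := by
    simp [Phi, gg]
  rw [h0, zero_add]
  congr 1
  refine Finset.sum_congr rfl fun j _ => ?_
  rw [map_smul, map_add, map_smul, ← iter_eq, ← iter_eq, iter_const]
  simp only [Pi.smul_apply, Pi.add_apply, smul_eq_mul]
  ring

lemma int_w {α : Measure ℝ} [IsProbabilityMeasure α] {c : ℝ} (hc : 0 < c)
    (hα : ∀ᵐ w ∂α, c ≤ w ∧ w ≤ 1 - c) : Integrable (fun w : ℝ => w) α := by
  refine Integrable.of_bound measurable_id.aestronglyMeasurable 1 ?_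
  filter_upwards [hα] with t ht
  rw [Real.norm_eq_abs, abs_of_nonneg (by linarith [ht.1])]
  linarith [ht.2]

lemma inv_eq_one_add_rho {α : Measure ℝ} [IsProbabilityMeasure α] {c : ℝ} (hc : 0 < c)
    (hα : ∀ᵐ w ∂α, c ≤ w ∧ w ≤ 1 - c) : ∫ w, 1 / w ∂α = 1 + ∫ w, rho w ∂α := by
  have : ∫ w, 1 / w ∂α = ∫ w, (1 + rho w) ∂α := by
    refine integral_congr_ae ?_
    filter_upwards [hα] with w hw
    have : w ≠ 0 := (lt_of_lt_of_le hc hw.1).ne'
    unfold rho; field_simp; ring
  rw [this, integral_add (integrable_const _) (int_rho hc hα)]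
  simp

lemma mean_pos {α : Measure ℝ} [IsProbabilityMeasure α] {c : ℝ} (hc : 0 < c)
    (hα : ∀ᵐ w ∂α, c ≤ w ∧ w ≤ 1 - c) : 0 < ∫ w, w ∂α := by
  have : c ≤ ∫ w, w ∂α := by
    calc c = ∫ _w, c ∂α := by simp
      _ ≤ ∫ w, w ∂α := by
        refine integral_mono_ae (integrable_const _) (int_w hc hα) ?_
        filter_upwards [hα] with w hw
        exact hw.1
  linarith

/-- strict Jensen for `1/w`. -/
lemma jensen_strict {α : Measure ℝ} [IsProbabilityMeasure α] {c : ℝ} (hc : 0 < c)
    (hα : ∀ᵐ w ∂α, c ≤ w ∧ w ≤ 1 - c) (hnd : ¬ ∃ a : ℝ, ∀ᵐ w ∂α, w = a) :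
    1 < (∫ w, 1 / w ∂α) * ∫ w, w ∂α := by
  set a := ∫ w, w ∂α with ha
  have hapos : 0 < a := mean_pos hc hα
  set F : ℝ → ℝ := fun w => 1 / w - 2 / a + w * (1 / a ^ 2) with hF
  have hFn : 0 ≤ᵐ[α] F := by
    filter_upwards [hα] with w hw
    have hw0 : 0 < w := lt_of_lt_of_le hc hw.1
    have : F w = (w - a) ^ 2 / (w * a ^ 2) := by
      simp only [hF]; field_simp; ring
    simp only [Pi.zero_apply]
    rw [this]; positivity
  have hFi : Integrable F α :=
    ((int_inv hc hα).sub (integrable_const _)).add ((int_w hc hα).mul_const _)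
  have hFint : ∫ w, F w ∂α = (∫ w, 1 / w ∂α) - 1 / a := by
    simp only [hF]
    rw [integral_add, integral_sub, integral_mul_const]
    · simp only [integral_const, probReal_univ, smul_eq_mul, one_mul]
      rw [← ha]; field_simp; ring
    · exact int_inv hc hα
    · exact integrable_const _
    · exact (int_inv hc hα).sub (integrable_const _)
    · exact (int_w hc hα).mul_const _
  have hpos : 0 < ∫ w, F w ∂α := by
    rcases (integral_nonneg_of_ae hFn).lt_or_eq with h | h
    · exact h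
    · exfalso
      have h0 := (integral_eq_zero_iff_of_nonneg_ae hFn hFi).1 h.symm
      apply hnd
      refine ⟨a, ?_⟩
      filter_upwards [hα, h0] with w hw hw0
      have hwp : 0 < w := lt_of_lt_of_le hc hw.1
      have e : F w = (w - a) ^ 2 / (w * a ^ 2) := by
        simp only [hF]; field_simp; ring
      rw [e] at hw0
      simp only [Pi.zero_apply] at hw0
      rw [div_eq_zero_iff] at hw0
      rcases hw0 with h1 | h1
      · have := pow_eq_zero_iff (two_ne_zero) |>.1 h1
        linarith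
      · exfalso; have : 0 < w * a ^ 2 := by positivity
        linarith
  rw [hFint] at hpos
  have : 1 / a < ∫ w, 1 / w ∂α := by linarith
  rw [div_lt_iff₀ hapos] at this
  exact this

lemma rho_lt_one {α : Measure ℝ} [IsProbabilityMeasure α] {c : ℝ} (hc : 0 < c)
    (hα : ∀ᵐ w ∂α, c ≤ w ∧ w ≤ 1 - c) (hnd : ¬ ∃ a : ℝ, ∀ᵐ w ∂α, w = a)
    (s : ℝ) (hs : 1 < s) (h1 : ∫ w, rho w ^ s ∂α = 1) : ∫ w, rho w ∂α < 1 := by
  set F : ℝ → ℝ := fun w => rho w ^ s - (1 + s * (rho w - 1)) with hF
  have hFn : 0 ≤ᵐ[α] F := by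
    filter_upwards [hα] with w hw
    have h0 := rho_nonneg hc hw
    have := one_add_mul_self_le_rpow_one_add (s := rho w - 1) (by linarith) hs.le
    simp only [Pi.zero_apply, hF]
    rw [show 1 + (rho w - 1) = rho w by ring] at this
    linarith
  have hi1 : Integrable (fun w => rho w ^ s) α := by
    refine Integrable.of_bound (measurable_rho.pow_const s).aestronglyMeasurable ((1 / c) ^ s) ?_
    filter_upwards [hα] with t ht
    have h0 := rho_nonneg hc ht
    rw [Real.norm_eq_abs, abs_of_nonneg (Real.rpow_nonneg h0 s)]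
    exact Real.rpow_le_rpow h0 (rho_le hc ht) (by linarith)
  have hi2 : Integrable (fun w => 1 + s * (rho w - 1)) α :=
    (integrable_const _).add (((int_rho hc hα).sub (integrable_const _)).const_mul _)
  have hFi : Integrable F α := hi1.sub hi2
  have hFint : ∫ w, F w ∂α = s * (1 - ∫ w, rho w ∂α) := by
    simp only [hF]
    rw [integral_sub hi1 hi2, h1]
    have e : (fun w => 1 + s * (rho w - 1)) = fun w => (1 - s) + s * rho w := by
      funext w; ring
    rw [e, integral_add (integrable_const _) ((int_rho hc hα).const_mul s), integral_const_mul]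
    simp only [integral_const, probReal_univ, smul_eq_mul, one_mul]
    ring
  have hge := integral_nonneg_of_ae hFn
  rw [hFint] at hge
  by_contra hcon
  push Not at hcon
  have heq : ∫ w, rho w ∂α = 1 := by
    have : 0 ≤ 1 - ∫ w, rho w ∂α := by
      by_contra hh
      push Not at hh
      have := mul_neg_of_pos_of_neg (by linarith : (0:ℝ) < s) hh
      linarith
    linarith
  have h0 : ∫ w, F w ∂α = 0 := by rw [hFint, heq]; ring
  have h0' := (integral_eq_zero_iff_of_nonneg_ae hFn hFi).1 h0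
  apply hnd
  refine ⟨1 / 2, ?_⟩
  filter_upwards [hα, h0'] with w hw hw0
  have hwp : 0 < w := lt_of_lt_of_le hc hw.1
  have hr0 := rho_nonneg hc hw
  by_contra hne
  have hrne : rho w - 1 ≠ 0 := by
    intro h
    apply hne
    unfold rho at h
    field_simp at h
    linarith
  have := one_add_mul_self_lt_rpow_one_add (s := rho w - 1) (by linarith) hrne hs
  rw [show 1 + (rho w - 1) = rho w by ring] at this
  simp only [hF, Pi.zero_apply] at hw0
  linarith

lemma test_U {c : ℝ} (hc : 0 < c) (n : ℕ) (i : ℤ) (a : ℝ) :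
    Test c (fun ω => ((step ω)^[n] (ind i)) 0 - a) := by
  refine ⟨(iter_meas (ind i) n 0).sub_const a, ⟨1 + |a|, fun ω hω => ?_⟩, ?_⟩
  · have h := iter_ind_bd hc i n ω hω 0
    have := abs_sub (((step ω)^[n] (ind i)) 0) a
    have h2 : |((step ω)^[n] (ind i)) 0| ≤ 1 := by rw [abs_of_nonneg h.1]; exact h.2
    linarith
  · intro ω hω ω' hω' hle
    have := iter_ind_anti hc i n ω ω' hω hω' hle 0
    linarith

theorem main (α : Measure ℝ) [IsProbabilityMeasure α] (c : ℝ) (hc : 0 < c)
    (hα : ∀ᵐ w ∂α, c ≤ w ∧ w ≤ 1 - c) (hnd : ¬ ∃ a : ℝ, ∀ᵐ w ∂α, w = a)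
    (hr : ∫ w, rho w ∂α < 1) (n : ℕ) (hn : 1 ≤ n) :
    (1 - ∫ w, rho w ∂α) / (1 + ∫ w, rho w ∂α) * n < annealedMean α n := by
  set r := ∫ w, rho w ∂α with hrdef
  have hr0 : 0 ≤ r := by
    refine integral_nonneg_of_ae ?_
    filter_upwards [hα] with w hw
    exact rho_nonneg hc hw
  set V : ℝ := (1 + r) / (1 - r) with hVdef
  have h1r : 0 < 1 - r := by linarith
  have hV : 0 < V := by rw [hVdef]; positivity
  have hb : ∫ w, 1 / w ∂α = 1 + r := inv_eq_one_add_rho hc hα
  have hVeq : (∫ w, 1 / w ∂α) + r * V = V := by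
    rw [hb, hVdef]; field_simp; ring
  have hV1 : (1 - r) / (1 + r) = 1 / V := by rw [hVdef]; rw [one_div_div]
  rw [hV1]
  obtain ⟨k, rfl⟩ : ∃ k : ℕ, n = k + 1 := ⟨n - 1, by omega⟩
  set n := k + 1 with hndef
  -- the terms
  set U : ℕ → (ℤ → ℝ) → ℝ := fun j ω =>
    ((step ω)^[n] (ind ((j : ℤ) - n))) 0 - ind ((j : ℤ) - n) 0 with hU
  have hT : ∀ j, Test c (U j) := fun j => test_U hc n _ _
  have hint1 : ∀ j, Integrable (fun ω => mm n V (j + 1) ω * U j ω) (envLaw α) := fun j =>
    Test.integrable hα ((mm_measurable n V (j + 1)).mul (hT j).meas)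
      (prod_bdd (mm_bdd' n hV.le hc (j + 1)) (hT j).bdd)
  have hint2 : ∀ j, Integrable (U j) (envLaw α) := fun j =>
    Test.integrable hα (hT j).meas (hT j).bdd
  have hterm : ∀ j, ∫ ω, (1 / V * mm n V (j + 1) ω - 1) * U j ω ∂(envLaw α)
      = 1 / V * ∫ ω, mm n V (j + 1) ω * U j ω ∂(envLaw α) - ∫ ω, U j ω ∂(envLaw α) := by
    intro j
    rw [← integral_const_mul, ← integral_sub ((hint1 j).const_mul _) (hint2 j)]
    congr 1; funext ω; ring
  have hintT : ∀ j, Integrable (fun ω => (1 / V * mm n V (j + 1) ω - 1) * U j ω) (envLaw α) := by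
    intro j
    have := ((hint1 j).const_mul (1 / V)).sub (hint2 j)
    refine this.congr (Filter.Eventually.of_forall fun ω => ?_)
    simp only [Pi.sub_apply]; ring
  have hmean : annealedMean α n = n * (1 / V)
      + ∑ j ∈ Finset.range (2 * n), ∫ ω, (1 / V * mm n V (j + 1) ω - 1) * U j ω ∂(envLaw α) := by
    unfold annealedMean
    have : ∫ ω, qexp ω n (fun k => (k : ℝ)) ∂(envLaw α)
        = ∫ ω, ((n : ℝ) * (1 / V) + ∑ j ∈ Finset.range (2 * n),
            (1 / V * mm n V (j + 1) ω - 1) * U j ω) ∂(envLaw α) := by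
      refine integral_congr_ae ?_
      filter_upwards [good_ae α c hα] with ω hω
      exact qexp_id n hV hc ω hω
    rw [this, integral_add (integrable_const _) (integrable_finsetSum _ fun j _ => hintT j),
      integral_finsetSum _ fun j _ => hintT j]
    simp
  rw [hmean]
  have hnonneg : ∀ j ∈ Finset.range (2 * n),
      0 ≤ ∫ ω, (1 / V * mm n V (j + 1) ω - 1) * U j ω ∂(envLaw α) := by
    intro j _
    rw [hterm j]
    have := star hc hα n hV.le hVeq (j + 1) (U j) (hT j)
    have h2 := mul_le_mul_of_nonneg_left this (by positivity : (0:ℝ) ≤ 1 / V)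
    rw [← mul_assoc, one_div_mul_cancel hV.ne', one_mul] at h2
    linarith
  -- the last term is positive
  set j0 : ℕ := 2 * k + 1 with hj0
  have hj0n : ((j0 : ℤ) - n) = k := by rw [hj0, hndef]; push_cast; ring
  set W : (ℤ → ℝ) → ℝ := fun ω => ∏ l ∈ Finset.range k, ω ((l : ℤ)) with hW
  have hWmeas : Measurable W := by
    simp only [hW]
    exact Finset.measurable_prod _ (fun l _ => measurable_pi_apply _)
  have hUj0 : ∀ ω, U j0 ω = -(W ω * ω k) := by
    intro ω
    simp only [hU]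
    rw [hj0n, (iter_ind_top ω k n).2 0 (by rw [hndef]; push_cast; ring)]
    have : ind (k : ℤ) 0 = 1 := by unfold ind; rw [if_pos]; omega
    rw [this, hndef, Finset.prod_range_succ]
    simp only [hW, zero_add]
    ring
  have hWpos : 0 < ∫ ω, W ω ∂(envLaw α) := by
    have hWi : Integrable W (envLaw α) := by
      refine Test.integrable hα hWmeas ⟨1, fun ω hω => ?_⟩
      simp only [hW]
      rw [Finset.abs_prod]
      refine Finset.prod_le_one (fun _ _ => abs_nonneg _) fun l _ => ?_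
      rw [abs_of_nonneg (by linarith [(hω l).1])]
      linarith [(hω l).2]
    have : c ^ k ≤ ∫ ω, W ω ∂(envLaw α) := by
      calc c ^ k = ∫ _ω, c ^ k ∂(envLaw α) := by simp
        _ ≤ _ := by
          refine integral_mono_ae (integrable_const _) hWi ?_
          filter_upwards [good_ae α c hα] with ω hω
          simp only [hW]
          calc c ^ k = ∏ _l ∈ Finset.range k, c := by simp
            _ ≤ _ := Finset.prod_le_prod (fun _ _ => hc.le) (fun l _ => (hω l).1)
    have := pow_pos hc k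
    linarith
  have hlast : 0 < ∫ ω, (1 / V * mm n V (j0 + 1) ω - 1) * U j0 ω ∂(envLaw α) := by
    rw [hterm j0]
    have h2 := star2 hc hα n hV.le hVeq j0 (star hc hα n hV.le hVeq j0) (U j0) (hT j0)
    have e1 : ∫ ω, (1 / ω ((j0 : ℤ) - n)) * U j0 ω ∂(envLaw α) = - ∫ ω, W ω ∂(envLaw α) := by
      rw [← integral_neg]
      refine integral_congr_ae ?_
      filter_upwards [good_ae α c hα] with ω hω
      rw [hUj0, hj0n]
      have : ω k ≠ 0 := (lt_of_lt_of_le hc (hω k).1).ne'
      field_simp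
    have e2 : ∫ ω, U j0 ω ∂(envLaw α) = - ((∫ w, w ∂α) * ∫ ω, W ω ∂(envLaw α)) := by
      rw [integral_resample α (k : ℤ) (U j0) (hint2 j0), ← integral_const_mul, ← integral_neg]
      congr 1; funext ω
      have : ∀ t, U j0 (Function.update ω (k : ℤ) t) = (-(W ω)) * t := by
        intro t
        rw [hUj0, Function.update_self]
        have : W (Function.update ω (k : ℤ) t) = W ω := by
          simp only [hW]
          refine Finset.prod_congr rfl fun l hl => ?_
          rw [Function.update_of_ne]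
          have := Finset.mem_range.1 hl
          omega
        rw [this]; ring
      simp_rw [this]
      rw [integral_const_mul]; ring
    rw [e1] at h2
    have hJ := jensen_strict hc hα hnd
    have h3 : 0 < - (∫ ω, W ω ∂(envLaw α)) - (∫ w, 1 / w ∂α) * ∫ ω, U j0 ω ∂(envLaw α) := by
      rw [e2]
      have : - (∫ ω, W ω ∂(envLaw α)) - (∫ w, 1 / w ∂α) * -((∫ w, w ∂α) * ∫ ω, W ω ∂(envLaw α))
          = (∫ ω, W ω ∂(envLaw α)) * ((∫ w, 1 / w ∂α) * (∫ w, w ∂α) - 1) := by ring
      rw [this]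
      exact mul_pos hWpos (by linarith)
    have h4 : V * ∫ ω, U j0 ω ∂(envLaw α) < ∫ ω, mm n V (j0 + 1) ω * U j0 ω ∂(envLaw α) := by
      linarith
    have h5 := mul_lt_mul_of_pos_left h4 (by positivity : (0:ℝ) < 1 / V)
    rw [← mul_assoc, one_div_mul_cancel hV.ne', one_mul] at h5
    linarith
  have hsum : 0 < ∑ j ∈ Finset.range (2 * n),
      ∫ ω, (1 / V * mm n V (j + 1) ω - 1) * U j ω ∂(envLaw α) :=
    Finset.sum_pos' hnonneg ⟨j0, Finset.mem_range.2 (by omega), hlast⟩
  linarith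

/-- uniform ellipticity -/
def UniformlyElliptic (α : Measure ℝ) : Prop :=
  ∃ c : ℝ, 0 < c ∧ ∀ᵐ w ∂α, c ≤ w ∧ w ≤ 1 - c

/-- `α` is not a point mass -/
def NonDegenerate (α : Measure ℝ) : Prop := ¬ ∃ a : ℝ, ∀ᵐ w ∂α, w = a

/-- `s`-transience -/
def STransient (α : Measure ℝ) (s : ℝ) : Prop :=
  ∫ w, Real.log (rho w) ∂α < 0 ∧ ∫ w, rho w ^ s ∂α = 1 ∧
    Integrable (fun w => rho w * max (Real.log (rho w)) 0) α

/-- For every `s > 1` (in particular for every `s > 2`) and every non-degenerate, uniformly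
elliptic, `s`-transient `α`, the annealed mean of `Z_n` is strictly larger than `v_μ n` for every
`n ≥ 1`; in particular it differs from `v_μ n` for infinitely many `n`. -/
theorem result : ∀ (α : Measure ℝ) [IsProbabilityMeasure α], UniformlyElliptic α →
    NonDegenerate α → ∀ s : ℝ, 1 < s → STransient α s →
    (∀ n : ℕ, 1 ≤ n → speed α * n < annealedMean α n) ∧
    {n : ℕ | annealedMean α n ≠ speed α * n}.Infinite := by
  intro α _ hue hnd s hs hst
  obtain ⟨c, hc, hα⟩ := hue
  have hr := rho_lt_one hc hα hnd s hs hst.2.1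
  have hsp : speed α = (1 - ∫ w, rho w ∂α) / (1 + ∫ w, rho w ∂α) := by
    unfold speed; rw [if_pos hr]
  have hmain : ∀ n : ℕ, 1 ≤ n → speed α * n < annealedMean α n := by
    intro n hn
    rw [hsp]
    exact main α c hc hα hnd hr n hn
  refine ⟨hmain, ?_⟩
  refine Set.infinite_of_injective_forall_mem (f := fun k : ℕ => k + 1)
    (fun a b h => by simpa using h) ?_
  intro k
  exact (hmain (k + 1) (by omega)).ne'

end Pool.Agent.Results.MP_c9886c_pr.MeanExceedsSpeed
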